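import Mathlib.Algebra.BigOperators.Field
import Mathlib.Algebra.Order.Star.Real
import Mathlib.Analysis.SpecialFunctions.Log.Deriv
import Mathlib.Analysis.SpecialFunctions.Trigonometric.DerivHyp
import Mathlib.Tactic.Algebra.Basic

-- ======== part 0: formerly Pool.Agent.MP_344f7e_co.H86.Entropy
section MrgPart0

/-!
A small Shannon entropy toolkit for finite probability spaces, with conditionally
independent gluing of two spaces along random variables that have the same law.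
-/

set_option autoImplicit false

namespace Pool.Agent.MP_344f7e_co.H86

open Finset

/-- Real valued indicator of a proposition. -/
noncomputable def ind (c : Prop) : ℝ := by classical exact if c then 1 else 0

lemma ind_pos {c : Prop} (h : c) : ind c = 1 := by simp [ind, h]
lemma ind_neg {c : Prop} (h : ¬ c) : ind c = 0 := by simp [ind, h]
lemma ind_nonneg (c : Prop) : 0 ≤ ind c := by
  by_cases h : c
  · simp [ind_pos h]
  · simp [ind_neg h]
lemma ind_le_one (c : Prop) : ind c ≤ 1 := by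
  by_cases h : c
  · simp [ind_pos h]
  · simp [ind_neg h]
lemma ind_and (c d : Prop) : ind (c ∧ d) = ind c * ind d := by
  by_cases h : c <;> by_cases k : d <;> simp [ind_pos, ind_neg, h, k]
lemma ind_congr {c d : Prop} (h : c ↔ d) : ind c = ind d := by rw [propext h]

lemma sum_ind_eq {β : Type} [Fintype β] (b : β) (g : β → ℝ) :
    ∑ c, ind (b = c) * g c = g b := by
  classical
  rw [Finset.sum_eq_single b]
  · simp [ind_pos]
  · intro c _ hc
    simp [ind_neg (Ne.symm hc)]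
  · simp

/-- A probability vector on a finite type. -/
structure FD (Ω : Type) [Fintype Ω] where
  p : Ω → ℝ
  nonneg : ∀ w, 0 ≤ p w
  sum_eq : ∑ w, p w = 1

namespace FD

variable {Ω Ω' Ω₁ Ω₂ β γ δ : Type} [Fintype Ω] [Fintype Ω'] [Fintype Ω₁] [Fintype Ω₂]

/-- The law of a random variable. -/
noncomputable def law (P : FD Ω) (X : Ω → β) (b : β) : ℝ := ∑ w, ind (X w = b) * P.p w

/-- Shannon entropy of a random variable. -/
noncomputable def H (P : FD Ω) (X : Ω → β) : ℝ := - ∑ w, P.p w * Real.log (P.law X (X w))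

lemma law_nonneg (P : FD Ω) (X : Ω → β) (b : β) : 0 ≤ P.law X b :=
  Finset.sum_nonneg fun w _ => mul_nonneg (ind_nonneg _) (P.nonneg w)

lemma le_law (P : FD Ω) (X : Ω → β) (w : Ω) : P.p w ≤ P.law X (X w) := by
  have := Finset.single_le_sum (f := fun v => ind (X v = X w) * P.p v)
    (fun v _ => mul_nonneg (ind_nonneg _) (P.nonneg v)) (Finset.mem_univ w)
  simp only [ind_pos, one_mul] at this
  exact this

lemma law_def (P : FD Ω) (X : Ω → β) (b : β) : P.law X b = ∑ w, ind (X w = b) * P.p w := rfl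

lemma law_pos (P : FD Ω) (X : Ω → β) {w : Ω} (h : P.p w ≠ 0) : 0 < P.law X (X w) :=
  lt_of_lt_of_le (lt_of_le_of_ne (P.nonneg w) (Ne.symm h)) (P.le_law X w)

lemma exists_of_law_ne (P : FD Ω) (X : Ω → β) {b : β} (h : P.law X b ≠ 0) :
    ∃ w, P.p w ≠ 0 ∧ X w = b := by
  by_contra hc
  push Not at hc
  apply h
  apply Finset.sum_eq_zero
  intro w _
  by_cases hw : P.p w = 0
  · simp [hw]
  · simp [ind_neg (hc w hw)]

lemma expect [Fintype β] (P : FD Ω) (X : Ω → β) (g : β → ℝ) :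
    ∑ w, P.p w * g (X w) = ∑ b, P.law X b * g b := by
  simp only [law, Finset.sum_mul]
  rw [Finset.sum_comm]
  apply Finset.sum_congr rfl
  intro w _
  have := sum_ind_eq (X w) (fun b => P.p w * g b)
  rw [← this]
  apply Finset.sum_congr rfl
  intro b _
  ring

lemma sum_law [Fintype β] (P : FD Ω) (X : Ω → β) : ∑ b, P.law X b = 1 := by
  have := P.expect X (fun _ => 1)
  simp only [mul_one] at this
  rw [← this, P.sum_eq]

lemma law_comp [Fintype β] (P : FD Ω) (X : Ω → β) (f : β → γ) (c : γ) :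
    P.law (fun w => f (X w)) c = ∑ b, P.law X b * ind (f b = c) := by
  rw [← P.expect X (fun b => ind (f b = c))]
  simp only [law]
  apply Finset.sum_congr rfl
  intro w _
  ring

lemma H_eq [Fintype β] (P : FD Ω) (X : Ω → β) :
    P.H X = - ∑ b, P.law X b * Real.log (P.law X b) := by
  rw [H, P.expect X (fun b => Real.log (P.law X b))]

/-- Two random variables, possibly on different spaces, have the same law. -/
def Same (P : FD Ω) (X : Ω → β) (Q : FD Ω') (Y : Ω' → β) : Prop := ∀ b, P.law X b = Q.law Y b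

lemma Same.refl (P : FD Ω) (X : Ω → β) : Same P X P X := fun _ => rfl
lemma Same.symm {P : FD Ω} {X : Ω → β} {Q : FD Ω'} {Y : Ω' → β} (h : Same P X Q Y) :
    Same Q Y P X := fun b => (h b).symm
lemma Same.trans {P : FD Ω} {X : Ω → β} {Q : FD Ω'} {Y : Ω' → β} {R : FD Ω₁} {Z : Ω₁ → β}
    (h : Same P X Q Y) (k : Same Q Y R Z) : Same P X R Z := fun b => (h b).trans (k b)

lemma Same.map [Fintype β] {P : FD Ω} {X : Ω → β} {Q : FD Ω'} {Y : Ω' → β} (h : Same P X Q Y)
    (f : β → γ) : Same P (fun w => f (X w)) Q (fun w => f (Y w)) := by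
  intro c
  rw [law_comp, law_comp]
  apply Finset.sum_congr rfl
  intro b _
  rw [h b]

lemma Same.H_eq [Fintype β] {P : FD Ω} {X : Ω → β} {Q : FD Ω'} {Y : Ω' → β} (h : Same P X Q Y) :
    P.H X = Q.H Y := by
  rw [FD.H_eq, FD.H_eq]
  congr 1
  apply Finset.sum_congr rfl
  intro b _
  rw [h b]

lemma same_of_ae (P : FD Ω) {X Y : Ω → β} (h : ∀ w, P.p w ≠ 0 → X w = Y w) : Same P X P Y := by
  intro b
  apply Finset.sum_congr rfl
  intro w _
  by_cases hw : P.p w = 0
  · simp [hw]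
  · rw [h w hw]

/-- A property that holds on the support transfers along equality of laws. -/
lemma Same.ae {P : FD Ω} {X : Ω → β} {Q : FD Ω'} {Y : Ω' → β} (h : Same P X Q Y)
    (S : β → Prop) (hS : ∀ w, Q.p w ≠ 0 → S (Y w)) : ∀ w, P.p w ≠ 0 → S (X w) := by
  intro w hw
  have h1 := (P.law_pos X hw).ne'
  rw [h] at h1
  obtain ⟨v, hv, hv2⟩ := Q.exists_of_law_ne Y h1
  rw [← hv2]
  exact hS v hv

/-- Gibbs inequality. -/
lemma gibbs [Fintype β] (P : FD Ω) (X : Ω → β) (q : β → ℝ) (hq : ∀ b, 0 ≤ q b)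
    (hs : ∑ b, q b ≤ 1) (hpos : ∀ w, P.p w ≠ 0 → 0 < q (X w)) :
    P.H X ≤ - ∑ w, P.p w * Real.log (q (X w)) := by
  have key : ∑ w, P.p w * (Real.log (q (X w)) - Real.log (P.law X (X w)))
      ≤ ∑ w, P.p w * (q (X w) / P.law X (X w) - 1) := by
    apply Finset.sum_le_sum
    intro w _
    by_cases hw : P.p w = 0
    · simp [hw]
    · apply mul_le_mul_of_nonneg_left _ (P.nonneg w)
      have h1 := hpos w hw
      have h2 := P.law_pos X hw
      rw [← Real.log_div h1.ne' h2.ne']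
      exact Real.log_le_sub_one_of_pos (div_pos h1 h2)
  have k2 : ∑ w, P.p w * (q (X w) / P.law X (X w) - 1) ≤ 0 := by
    rw [P.expect X (fun b => q b / P.law X b - 1)]
    have : ∑ b, P.law X b * (q b / P.law X b - 1) ≤ ∑ b, (q b - P.law X b) := by
      apply Finset.sum_le_sum
      intro b _
      by_cases hb : P.law X b = 0
      · simp [hb, hq b]
      · apply le_of_eq
        field_simp
    rw [Finset.sum_sub_distrib, P.sum_law] at this
    linarith
  simp only [mul_sub, Finset.sum_sub_distrib] at key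
  unfold H
  simp only [mul_sub, Finset.sum_sub_distrib] at k2
  linarith

lemma H_le_log_card [Fintype β] (P : FD Ω) (X : Ω → β) (S : Finset β)
    (hS : ∀ w, P.p w ≠ 0 → X w ∈ S) : P.H X ≤ Real.log S.card := by
  classical
  have hne : S.Nonempty := by
    by_contra hc
    have : ∑ w, P.p w = 0 := by
      apply Finset.sum_eq_zero
      intro w _
      by_contra hw
      exact hc ⟨_, hS w hw⟩
    rw [P.sum_eq] at this
    exact one_ne_zero this
  have hc : (0 : ℝ) < S.card := by exact_mod_cast hne.card_pos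
  have := P.gibbs X (fun b => if b ∈ S then (S.card : ℝ)⁻¹ else 0)
    (fun b => by split_ifs <;> positivity)
    (by rw [Finset.sum_ite_mem, Finset.univ_inter, Finset.sum_const, nsmul_eq_mul,
      mul_inv_cancel₀ hc.ne'])
    (fun w hw => by rw [if_pos (hS w hw)]; positivity)
  refine this.trans (le_of_eq ?_)
  have : ∑ w, P.p w * Real.log (if X w ∈ S then (S.card : ℝ)⁻¹ else 0)
      = ∑ w, P.p w * (- Real.log S.card) := by
    apply Finset.sum_congr rfl
    intro w _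
    by_cases hw : P.p w = 0
    · simp [hw]
    · rw [if_pos (hS w hw), Real.log_inv]
  rw [this, ← Finset.sum_mul, P.sum_eq]
  ring

lemma H_le_log [Fintype β] (P : FD Ω) (X : Ω → β) : P.H X ≤ Real.log (Fintype.card β) := by
  have := P.H_le_log_card X Finset.univ (fun _ _ => Finset.mem_univ _)
  simpa using this

/-- Data processing: a function of `Y` has at most the entropy of `Y`. -/
lemma H_le_of_det (P : FD Ω) (X : Ω → β) (Y : Ω → γ) (g : γ → β)
    (h : ∀ w, P.p w ≠ 0 → X w = g (Y w)) : P.H X ≤ P.H Y := by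
  unfold H
  apply neg_le_neg
  apply Finset.sum_le_sum
  intro w _
  by_cases hw : P.p w = 0
  · simp [hw]
  · apply mul_le_mul_of_nonneg_left _ (P.nonneg w)
    apply Real.log_le_log (P.law_pos Y hw)
    apply Finset.sum_le_sum
    intro v _
    by_cases hv : P.p v = 0
    · simp [hv]
    · apply mul_le_mul_of_nonneg_right _ (P.nonneg v)
      by_cases hy : Y v = Y w
      · rw [ind_pos hy, ind_pos (by rw [h v hv, h w hw, hy])]
      · rw [ind_neg hy]
        exact ind_nonneg _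

lemma H_eq_of_det (P : FD Ω) (X : Ω → β) (Y : Ω → γ) (g : γ → β) (k : β → γ)
    (h : ∀ w, P.p w ≠ 0 → X w = g (Y w)) (h' : ∀ w, P.p w ≠ 0 → Y w = k (X w)) :
    P.H X = P.H Y :=
  le_antisymm (P.H_le_of_det X Y g h) (P.H_le_of_det Y X k h')

/-- Submodularity, with the common part `W` a function of both variables. -/
lemma submod [Fintype β] [Fintype γ] [Fintype δ] (P : FD Ω) (X : Ω → β) (Y : Ω → γ) (W : Ω → δ)
    (f : β → δ) (g : γ → δ) (hf : ∀ w, W w = f (X w)) (hg : ∀ w, W w = g (Y w)) :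
    P.H (fun w => (X w, Y w)) + P.H W ≤ P.H X + P.H Y := by
  have hW : W = fun w => f (X w) := funext hf
  have hW' : W = fun w => g (Y w) := funext hg
  have hs : ∑ c : β × γ, ind (f c.1 = g c.2) * P.law X c.1 * P.law Y c.2 / P.law W (f c.1) ≤ 1 := by
    rw [Fintype.sum_prod_type]
    have : ∀ b, ∑ c, ind (f b = g c) * P.law X b * P.law Y c / P.law W (f b) ≤ P.law X b := by
      intro b
      have e : ∑ c, ind (f b = g c) * P.law X b * P.law Y c / P.law W (f b)
          = P.law X b * (P.law W (f b) / P.law W (f b)) := by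
        have e0 : P.law W (f b) = ∑ c, P.law Y c * ind (g c = f b) := by
          rw [hW', P.law_comp Y g (f b)]
        rw [← mul_div_assoc]
        nth_rewrite 2 [e0]
        rw [Finset.mul_sum, Finset.sum_div]
        apply Finset.sum_congr rfl
        intro c _
        rw [ind_congr (eq_comm (a := f b) (b := g c))]
        ring
      rw [e]
      have := div_self_le_one (P.law W (f b))
      have := P.law_nonneg X b
      nlinarith
    calc _ ≤ ∑ b, P.law X b := Finset.sum_le_sum fun b _ => this b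
      _ = 1 := P.sum_law X
  have := P.gibbs (fun w => (X w, Y w))
    (fun c => ind (f c.1 = g c.2) * P.law X c.1 * P.law Y c.2 / P.law W (f c.1))
    (fun c => div_nonneg (mul_nonneg (mul_nonneg (ind_nonneg _) (P.law_nonneg _ _))
      (P.law_nonneg _ _)) (P.law_nonneg _ _)) hs
    (fun w hw => by
      have h1 := P.law_pos X hw
      have h2 := P.law_pos Y hw
      have h3 := P.law_pos W hw
      simp only
      rw [ind_pos (by rw [← hf, ← hg]), ← hf]
      positivity)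
  have e : ∑ w, P.p w * Real.log (ind (f (X w) = g (Y w)) * P.law X (X w) * P.law Y (Y w)
        / P.law W (f (X w)))
      = ∑ w, (P.p w * Real.log (P.law X (X w)) + P.p w * Real.log (P.law Y (Y w))
        - P.p w * Real.log (P.law W (W w))) := by
    apply Finset.sum_congr rfl
    intro w _
    by_cases hw : P.p w = 0
    · simp [hw]
    · have h1 := P.law_pos X hw
      have h2 := P.law_pos Y hw
      have h3 := P.law_pos W hw
      rw [ind_pos (by rw [← hf, ← hg]), ← hf, one_mul, Real.log_div (by positivity) h3.ne',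
        Real.log_mul h1.ne' h2.ne']
      ring
  simp only at this
  rw [e, Finset.sum_sub_distrib, Finset.sum_add_distrib] at this
  unfold H at this ⊢
  linarith

/-- Conditionally independent gluing of `P` and `Q` along `U` and `V`. -/
noncomputable def glue [Fintype δ] (P : FD Ω) (Q : FD Ω') (U : Ω → δ) (V : Ω' → δ)
    (h : Same P U Q V) : FD (Ω × Ω') where
  p z := ind (U z.1 = V z.2) * P.p z.1 * Q.p z.2 / P.law U (U z.1)
  nonneg z := div_nonneg (mul_nonneg (mul_nonneg (ind_nonneg _) (P.nonneg _)) (Q.nonneg _))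
    (P.law_nonneg _ _)
  sum_eq := by
    rw [Fintype.sum_prod_type, ← P.sum_eq]
    apply Finset.sum_congr rfl
    intro w _
    by_cases hw : P.p w = 0
    · simp [hw]
    · have h1 := P.law_pos U hw
      have e : ∑ v, ind (U w = V v) * P.p w * Q.p v / P.law U (U w)
          = P.p w * (Q.law V (U w) / P.law U (U w)) := by
        rw [law_def Q V, Finset.sum_div, Finset.mul_sum]
        apply Finset.sum_congr rfl
        intro v _
        rw [ind_congr (eq_comm (a := U w) (b := V v))]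
        ring
      rw [e, ← h, div_self h1.ne', mul_one]

section glue

variable [Fintype δ] {P : FD Ω} {Q : FD Ω'} {U : Ω → δ} {V : Ω' → δ} (h : Same P U Q V)

lemma glue_supp {z : Ω × Ω'} (hz : (glue P Q U V h).p z ≠ 0) :
    P.p z.1 ≠ 0 ∧ Q.p z.2 ≠ 0 ∧ U z.1 = V z.2 := by
  refine ⟨fun e => hz ?_, fun e => hz ?_, ?_⟩
  · simp [glue, e]
  · simp [glue, e]
  · by_contra e
    exact hz (by simp [glue, ind_neg e])

lemma glue_law (X : Ω → β) (Y : Ω' → γ) (f : β → δ) (g : γ → δ)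
    (hf : ∀ w, U w = f (X w)) (hg : ∀ w, V w = g (Y w)) (b : β) (c : γ) :
    (glue P Q U V h).law (fun z => (X z.1, Y z.2)) (b, c)
      = ind (f b = g c) * P.law X b * Q.law Y c / P.law U (f b) := by
  have e : ind (f b = g c) * P.law X b * Q.law Y c / P.law U (f b)
      = ∑ w, ∑ v, ind (f b = g c) * (ind (X w = b) * P.p w) * (ind (Y v = c) * Q.p v)
        / P.law U (f b) := by
    rw [law_def P X, Finset.mul_sum, Finset.sum_mul, Finset.sum_div]
    apply Finset.sum_congr rfl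
    intro w _
    rw [law_def Q Y, Finset.mul_sum, Finset.sum_div]
  rw [e, law, Fintype.sum_prod_type]
  apply Finset.sum_congr rfl
  intro w _
  apply Finset.sum_congr rfl
  intro v _
  by_cases h1 : X w = b
  · by_cases h2 : Y v = c
    · simp only [glue, hf, hg, h1, h2, ind_pos]
      ring
    · rw [ind_neg h2, ind_neg (by simp [h2])]
      simp
  · rw [ind_neg h1, ind_neg (by simp [h1])]
    simp

lemma glue_fst (X : Ω → β) : Same (glue P Q U V h) (fun z => X z.1) P X := by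
  intro b
  rw [law, law, Fintype.sum_prod_type]
  apply Finset.sum_congr rfl
  intro w _
  by_cases hw : P.p w = 0
  · simp [glue, hw]
  · have h1 := P.law_pos U hw
    have e : ∑ v, ind (X w = b) * (glue P Q U V h).p (w, v)
        = ind (X w = b) * P.p w * (Q.law V (U w) / P.law U (U w)) := by
      rw [law_def Q V, Finset.sum_div, Finset.mul_sum]
      apply Finset.sum_congr rfl
      intro v _
      simp only [glue]
      rw [ind_congr (eq_comm (a := U w) (b := V v))]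
      ring
    rw [e, ← h, div_self h1.ne', mul_one]

lemma glue_snd (Y : Ω' → γ) : Same (glue P Q U V h) (fun z => Y z.2) Q Y := by
  intro c
  rw [law, law, Fintype.sum_prod_type, Finset.sum_comm]
  apply Finset.sum_congr rfl
  intro v _
  by_cases hv : Q.p v = 0
  · simp [glue, hv]
  · have h1 := Q.law_pos V hv
    have e : ∑ w, ind (Y v = c) * (glue P Q U V h).p (w, v)
        = ind (Y v = c) * Q.p v * (P.law U (V v) / P.law U (V v)) := by
      nth_rewrite 1 [law_def P U]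
      rw [Finset.sum_div, Finset.mul_sum]
      apply Finset.sum_congr rfl
      intro w _
      simp only [glue]
      by_cases e : U w = V v
      · rw [e]
        ring
      · simp [ind_neg e]
    rw [e, h, div_self h1.ne', mul_one]

lemma glue_H [Fintype β] [Fintype γ] (X : Ω → β) (Y : Ω' → γ) (f : β → δ) (g : γ → δ)
    (hf : ∀ w, U w = f (X w)) (hg : ∀ w, V w = g (Y w)) :
    (glue P Q U V h).H (fun z => (X z.1, Y z.2)) = P.H X + Q.H Y - P.H U := by
  rw [← (glue_fst h X).H_eq, ← (glue_snd h Y).H_eq, ← (glue_fst h U).H_eq]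
  unfold H
  rw [← neg_add, ← Finset.sum_add_distrib, neg_sub_neg, ← Finset.sum_sub_distrib,
    ← Finset.sum_neg_distrib]
  apply Finset.sum_congr rfl
  intro z _
  by_cases hz : (glue P Q U V h).p z = 0
  · simp [hz]
  · obtain ⟨h1, h2, h3⟩ := glue_supp h hz
    rw [glue_law h X Y f g hf hg, glue_fst h X, glue_snd h Y, glue_fst h U, ← hf, ← hg,
      ind_pos h3, one_mul]
    have a1 := P.law_pos X h1
    have a2 := Q.law_pos Y h2
    have a3 := P.law_pos U h1
    rw [Real.log_div (by positivity) a3.ne', Real.log_mul a1.ne' a2.ne']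
    ring

end glue

/-- The joint law of a pair across a gluing only depends on the two laws. -/
lemma glue_same [Fintype δ] [Fintype β] {P : FD Ω} {Q : FD Ω'} {U : Ω → δ} {V : Ω' → δ}
    (h : Same P U Q V) {P' : FD Ω₁} {Q' : FD Ω₂} {U' : Ω₁ → δ} {V' : Ω₂ → δ}
    (h' : Same P' U' Q' V') (X : Ω → β) (Y : Ω' → γ) (X' : Ω₁ → β) (Y' : Ω₂ → γ)
    (f : β → δ) (g : γ → δ)
    (hf : ∀ w, U w = f (X w)) (hg : ∀ w, V w = g (Y w))
    (hf' : ∀ w, U' w = f (X' w)) (hg' : ∀ w, V' w = g (Y' w))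
    (hX : Same P X P' X') (hY : Same Q Y Q' Y') :
    Same (glue P Q U V h) (fun z => (X z.1, Y z.2)) (glue P' Q' U' V' h')
      (fun z => (X' z.1, Y' z.2)) := by
  rintro ⟨b, c⟩
  rw [glue_law h X Y f g hf hg, glue_law h' X' Y' f g hf' hg', hX b, hY c]
  have : P.law U (f b) = P'.law U' (f b) := by
    rw [funext hf, funext hf']
    exact hX.map f (f b)
  rw [this]

/-- Gluing a space with itself along the same variable is symmetric. -/
lemma glue_swap [Fintype δ] {P : FD Ω} {U : Ω → δ} (h : Same P U P U) (X : Ω → β) (f : β → δ)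
    (hf : ∀ w, U w = f (X w)) :
    Same (glue P P U U h) (fun z => (X z.1, X z.2)) (glue P P U U h) (fun z => (X z.2, X z.1)) := by
  rintro ⟨b, c⟩
  have e : (glue P P U U h).law (fun z => (X z.2, X z.1)) (b, c)
      = (glue P P U U h).law (fun z => (X z.1, X z.2)) (c, b) := by
    apply Finset.sum_congr rfl
    intro z _
    rw [ind_congr (c := (X z.2, X z.1) = (b, c)) (d := (X z.1, X z.2) = (c, b))
      (by simp only [Prod.mk.injEq]; exact and_comm)]
  rw [e, glue_law h X X f f hf hf, glue_law h X X f f hf hf]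
  by_cases k : f b = f c
  · rw [k]
    ring
  · rw [ind_neg k, ind_neg (Ne.symm k)]
    simp

end FD

end Pool.Agent.MP_344f7e_co.H86

end MrgPart0

-- ======== part 1: formerly Pool.Agent.MP_344f7e_co.H86.Build
section MrgPart1

/-!
Two random homomorphisms of the Moebius ladder into a bipartite graph and their entropies.
-/

set_option autoImplicit false

namespace Pool.Agent.MP_344f7e_co.H86

open Finset

namespace FD

variable {Ω Ω' Ω₁ Ω₂ β γ δ : Type} [Fintype Ω] [Fintype Ω'] [Fintype Ω₁] [Fintype Ω₂]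

lemma copy_H [Fintype β] [Fintype γ] [Fintype δ] {P : FD Ω} {Q : FD Ω'} {U : Ω → δ} {V : Ω' → δ}
    (h : Same P U Q V) (X : Ω → β) (N : Ω' → γ) (f : β → δ) (hf : ∀ w, U w = f (X w)) :
    (glue P Q U V h).H (fun z => (X z.1, N z.2)) = P.H X + Q.H (fun v => (V v, N v)) - Q.H V := by
  rw [← h.H_eq, ← glue_H h X (fun v => (V v, N v)) f Prod.fst hf (fun _ => rfl)]
  apply H_eq_of_det _ _ _ (fun c => (c.1, c.2.2)) (fun c => (c.1, f c.1, c.2))
  · intro z _
    rfl
  · intro z hz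
    obtain ⟨_, _, h3⟩ := glue_supp h hz
    simp only [← hf, h3]

lemma copy_same [Fintype β] [Fintype γ] [Fintype δ] {P : FD Ω} {Q : FD Ω'} {U : Ω → δ}
    {V : Ω' → δ} (h : Same P U Q V) {P' : FD Ω₁} {U' : Ω₁ → δ}
    (h' : Same P' U' Q V) (X : Ω → β) (X' : Ω₁ → β) (N : Ω' → γ) (f : β → δ)
    (hf : ∀ w, U w = f (X w)) (hf' : ∀ w, U' w = f (X' w)) (hX : Same P X P' X') :
    Same (glue P Q U V h) (fun z => (X z.1, N z.2)) (glue P' Q U' V h')
      (fun z => (X' z.1, N z.2)) :=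
  (glue_same h h' X (fun v => (V v, N v)) X' (fun v => (V v, N v)) f Prod.fst hf (fun _ => rfl)
    hf' (fun _ => rfl) hX (Same.refl _ _)).map (fun c => (c.1, c.2.2))

lemma copy_new [Fintype γ] [Fintype δ] {P : FD Ω} {Q : FD Ω'} {U : Ω → δ} {V : Ω' → δ}
    (h : Same P U Q V) (N : Ω' → γ) :
    Same (glue P Q U V h) (fun z => (U z.1, N z.2)) Q (fun v => (V v, N v)) := by
  refine Same.trans (same_of_ae _ ?_) (glue_snd h (fun v => (V v, N v)))
  intro z hz
  obtain ⟨_, _, h3⟩ := glue_supp h hz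
  simp only [h3]

lemma subadd [Fintype β] [Fintype γ] (P : FD Ω) (X : Ω → β) (Y : Ω → γ) :
    P.H (fun w => (X w, Y w)) ≤ P.H X + P.H Y := by
  have h1 := P.submod X Y (fun _ => ()) (fun _ => ()) (fun _ => ()) (fun _ => rfl) (fun _ => rfl)
  have h2 : P.H (fun _ => ()) = 0 := by
    unfold H
    have : P.law (fun _ => ()) () = 1 := by
      rw [law_def]
      simp [ind_pos, P.sum_eq]
    simp [this]
  linarith

end FD

open FD

variable {X Y : Type} [Fintype X] [Fintype Y] (E : FD (X × Y))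

/-- Sample spaces of the random stars with centre in `X`. -/
abbrev O2 (X Y : Type) := (X × Y) × (X × Y)
abbrev O3 (X Y : Type) := O2 X Y × (X × Y)
abbrev O4 (X Y : Type) := O3 X Y × (X × Y)
abbrev O5 (X Y : Type) := O4 X Y × (X × Y)

noncomputable def L2 : FD (O2 X Y) := glue E E Prod.fst Prod.fst (Same.refl _ _)
lemma c2 : Same (L2 E) (fun z => z.1.1) E Prod.fst := glue_fst _ Prod.fst
noncomputable def L3 : FD (O3 X Y) := glue (L2 E) E (fun z => z.1.1) Prod.fst (c2 E)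
lemma c3 : Same (L3 E) (fun z => z.1.1.1) E Prod.fst :=
  (glue_fst (c2 E) (fun z => z.1.1)).trans (c2 E)
noncomputable def L4 : FD (O4 X Y) := glue (L3 E) E (fun z => z.1.1.1) Prod.fst (c3 E)
lemma c4 : Same (L4 E) (fun z => z.1.1.1.1) E Prod.fst :=
  (glue_fst (c3 E) (fun z => z.1.1.1)).trans (c3 E)
noncomputable def L5 : FD (O5 X Y) := glue (L4 E) E (fun z => z.1.1.1.1) Prod.fst (c4 E)

/-- The random cherry with centre in `Y`. -/
noncomputable def C2 : FD (O2 X Y) := glue E E Prod.snd Prod.snd (Same.refl _ _)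

noncomputable def hx : ℝ := E.H Prod.fst
noncomputable def hy : ℝ := E.H Prod.snd
noncomputable def he : ℝ := E.H (fun v => (v.1, v.2))
noncomputable def h2 : ℝ := (L2 E).H (fun z => (z.1.2, z.2.2))
noncomputable def h2x : ℝ := (C2 E).H (fun z => (z.1.1, z.2.1))
noncomputable def h3 : ℝ := (L3 E).H (fun z => (z.1.1.2, z.1.2.2, z.2.2))

/-! Entropies of the stars. -/

lemma HS2 : (L2 E).H (fun z => ((z.1.1, z.1.2), z.2.2)) = 2 * he E - hx E := by
  have := copy_H (Same.refl E Prod.fst) (fun v => (v.1, v.2)) Prod.snd Prod.fst (fun _ => rfl)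
  unfold L2 he hx
  linarith

lemma HS3 : (L3 E).H (fun z => (((z.1.1.1, z.1.1.2), z.1.2.2), z.2.2)) = 3 * he E - 2 * hx E := by
  have := copy_H (c2 E) (fun z => ((z.1.1, z.1.2), z.2.2)) Prod.snd (fun c => c.1.1)
    (fun _ => rfl)
  have h := HS2 E
  unfold L3
  unfold he hx at h ⊢
  linarith

lemma HS4 : (L4 E).H (fun z => ((((z.1.1.1.1, z.1.1.1.2), z.1.1.2.2), z.1.2.2), z.2.2))
    = 4 * he E - 3 * hx E := by
  have := copy_H (c3 E) (fun z => (((z.1.1.1, z.1.1.2), z.1.2.2), z.2.2)) Prod.snd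
    (fun c => c.1.1.1) (fun _ => rfl)
  have h := HS3 E
  unfold L4
  unfold he hx at h ⊢
  linarith

lemma HS5 : (L5 E).H (fun z => (((((z.1.1.1.1.1, z.1.1.1.1.2), z.1.1.1.2.2), z.1.1.2.2),
    z.1.2.2), z.2.2)) = 5 * he E - 4 * hx E := by
  have := copy_H (c4 E) (fun z => ((((z.1.1.1.1, z.1.1.1.2), z.1.1.2.2), z.1.2.2), z.2.2)) Prod.snd
    (fun c => c.1.1.1.1) (fun _ => rfl)
  have h := HS4 E
  unfold L5
  unfold he hx at h ⊢
  linarith

/-! Laws of sub-stars. -/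

lemma e21 : Same (L2 E) (fun z => (z.1.1, z.1.2)) E (fun v => (v.1, v.2)) :=
  glue_fst (Same.refl E Prod.fst) (fun v => (v.1, v.2))
lemma e22 : Same (L2 E) (fun z => (z.1.1, z.2.2)) E (fun v => (v.1, v.2)) :=
  copy_new (Same.refl E Prod.fst) Prod.snd
lemma e31 : Same (L3 E) (fun z => (z.1.1.1, z.1.1.2)) E (fun v => (v.1, v.2)) :=
  (glue_fst (c2 E) (fun z => (z.1.1, z.1.2))).trans (e21 E)
lemma e33 : Same (L3 E) (fun z => (z.1.1.1, z.2.2)) E (fun v => (v.1, v.2)) :=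
  copy_new (c2 E) Prod.snd

lemma s312 : Same (L3 E) (fun z => ((z.1.1.1, z.1.1.2), z.1.2.2))
    (L2 E) (fun z => ((z.1.1, z.1.2), z.2.2)) :=
  glue_fst (c2 E) (fun z => ((z.1.1, z.1.2), z.2.2))
lemma s323 : Same (L3 E) (fun z => ((z.1.1.1, z.1.2.2), z.2.2))
    (L2 E) (fun z => ((z.1.1, z.1.2), z.2.2)) :=
  copy_same (c2 E) (Same.refl E Prod.fst) (fun z => (z.1.1, z.2.2)) (fun v => (v.1, v.2))
    Prod.snd Prod.fst (fun _ => rfl) (fun _ => rfl) (e22 E)
lemma s412 : Same (L4 E) (fun z => ((z.1.1.1.1, z.1.1.1.2), z.1.1.2.2))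
    (L2 E) (fun z => ((z.1.1, z.1.2), z.2.2)) :=
  (glue_fst (c3 E) (fun z => ((z.1.1.1, z.1.1.2), z.1.2.2))).trans (s312 E)
lemma s414 : Same (L4 E) (fun z => ((z.1.1.1.1, z.1.1.1.2), z.2.2))
    (L2 E) (fun z => ((z.1.1, z.1.2), z.2.2)) :=
  copy_same (c3 E) (Same.refl E Prod.fst) (fun z => (z.1.1.1, z.1.1.2)) (fun v => (v.1, v.2))
    Prod.snd Prod.fst (fun _ => rfl) (fun _ => rfl) (e31 E)
lemma s434 : Same (L4 E) (fun z => ((z.1.1.1.1, z.1.2.2), z.2.2))
    (L2 E) (fun z => ((z.1.1, z.1.2), z.2.2)) :=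
  copy_same (c3 E) (Same.refl E Prod.fst) (fun z => (z.1.1.1, z.2.2)) (fun v => (v.1, v.2))
    Prod.snd Prod.fst (fun _ => rfl) (fun _ => rfl) (e33 E)

lemma t4123 : Same (L4 E) (fun z => (((z.1.1.1.1, z.1.1.1.2), z.1.1.2.2), z.1.2.2))
    (L3 E) (fun z => (((z.1.1.1, z.1.1.2), z.1.2.2), z.2.2)) :=
  glue_fst (c3 E) (fun z => (((z.1.1.1, z.1.1.2), z.1.2.2), z.2.2))
lemma t4234 : Same (L4 E) (fun z => (((z.1.1.1.1, z.1.1.2.2), z.1.2.2), z.2.2))
    (L3 E) (fun z => (((z.1.1.1, z.1.1.2), z.1.2.2), z.2.2)) :=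
  copy_same (c3 E) (c2 E) (fun z => ((z.1.1.1, z.1.2.2), z.2.2)) (fun z => ((z.1.1, z.1.2), z.2.2))
    Prod.snd (fun c => c.1.1) (fun _ => rfl) (fun _ => rfl) (s323 E)
lemma t5123 : Same (L5 E) (fun z => (((z.1.1.1.1.1, z.1.1.1.1.2), z.1.1.1.2.2), z.1.1.2.2))
    (L3 E) (fun z => (((z.1.1.1, z.1.1.2), z.1.2.2), z.2.2)) :=
  (glue_fst (c4 E) (fun z => (((z.1.1.1.1, z.1.1.1.2), z.1.1.2.2), z.1.2.2))).trans (t4123 E)
lemma t5234 : Same (L5 E) (fun z => (((z.1.1.1.1.1, z.1.1.1.2.2), z.1.1.2.2), z.1.2.2))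
    (L3 E) (fun z => (((z.1.1.1, z.1.1.2), z.1.2.2), z.2.2)) :=
  (glue_fst (c4 E) (fun z => (((z.1.1.1.1, z.1.1.2.2), z.1.2.2), z.2.2))).trans (t4234 E)
lemma t5345 : Same (L5 E) (fun z => (((z.1.1.1.1.1, z.1.1.2.2), z.1.2.2), z.2.2))
    (L3 E) (fun z => (((z.1.1.1, z.1.1.2), z.1.2.2), z.2.2)) :=
  copy_same (c4 E) (c2 E) (fun z => ((z.1.1.1.1, z.1.2.2), z.2.2))
    (fun z => ((z.1.1, z.1.2), z.2.2)) Prod.snd (fun c => c.1.1) (fun _ => rfl) (fun _ => rfl)
    (s434 E)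
lemma t5145 : Same (L5 E) (fun z => (((z.1.1.1.1.1, z.1.1.1.1.2), z.1.2.2), z.2.2))
    (L3 E) (fun z => (((z.1.1.1, z.1.1.2), z.1.2.2), z.2.2)) :=
  copy_same (c4 E) (c2 E) (fun z => ((z.1.1.1.1, z.1.1.1.2), z.2.2))
    (fun z => ((z.1.1, z.1.2), z.2.2)) Prod.snd (fun c => c.1.1) (fun _ => rfl) (fun _ => rfl)
    (s414 E)
lemma t5125 : Same (L5 E) (fun z => (((z.1.1.1.1.1, z.1.1.1.1.2), z.1.1.1.2.2), z.2.2))
    (L3 E) (fun z => (((z.1.1.1, z.1.1.2), z.1.2.2), z.2.2)) :=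
  copy_same (c4 E) (c2 E) (fun z => ((z.1.1.1.1, z.1.1.1.2), z.1.1.2.2))
    (fun z => ((z.1.1, z.1.2), z.2.2)) Prod.snd (fun c => c.1.1) (fun _ => rfl) (fun _ => rfl)
    (s412 E)

/-- The five leaves of the random five-star. -/
def lv5 (z : O5 X Y) : Y × Y × Y × Y × Y := (z.1.1.1.1.2, z.1.1.1.2.2, z.1.1.2.2, z.1.2.2, z.2.2)
/-- The three leaves of the random three-star. -/
def lv3 (z : O3 X Y) : Y × Y × Y := (z.1.1.2, z.1.2.2, z.2.2)

lemma H_lv5 : h3 E + 2 * (he E - hx E) ≤ (L5 E).H lv5 := by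
  have a3 : (L5 E).H (fun z => (z.1.1.1.1.2, z.1.1.1.2.2, z.1.1.2.2)) = h3 E :=
    ((t5123 E).map (fun c => (c.1.1.2, c.1.2, c.2))).H_eq
  have b3 := (t5123 E).H_eq
  have b4 : (L5 E).H (fun z => ((((z.1.1.1.1.1, z.1.1.1.1.2), z.1.1.1.2.2), z.1.1.2.2), z.1.2.2))
      = 4 * he E - 3 * hx E :=
    (glue_fst (c4 E) (fun z => ((((z.1.1.1.1, z.1.1.1.2), z.1.1.2.2), z.1.2.2), z.2.2))).H_eq.trans
      (HS4 E)
  rw [HS3] at b3
  have b5 := HS5 E
  have s1 := (L5 E).submod (fun z => (z.1.1.1.1.2, z.1.1.1.2.2, z.1.1.2.2, z.1.2.2))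
    (fun z => (((z.1.1.1.1.1, z.1.1.1.1.2), z.1.1.1.2.2), z.1.1.2.2))
    (fun z => (z.1.1.1.1.2, z.1.1.1.2.2, z.1.1.2.2)) (fun c => (c.1, c.2.1, c.2.2.1))
    (fun c => (c.1.1.2, c.1.2, c.2)) (fun _ => rfl) (fun _ => rfl)
  have s2 := (L5 E).submod lv5
    (fun z => ((((z.1.1.1.1.1, z.1.1.1.1.2), z.1.1.1.2.2), z.1.1.2.2), z.1.2.2))
    (fun z => (z.1.1.1.1.2, z.1.1.1.2.2, z.1.1.2.2, z.1.2.2))
    (fun c => (c.1, c.2.1, c.2.2.1, c.2.2.2.1))
    (fun c => (c.1.1.1.2, c.1.1.2, c.1.2, c.2)) (fun _ => rfl) (fun _ => rfl)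
  have d1 := (L5 E).H_le_of_det
    (fun z => ((((z.1.1.1.1.1, z.1.1.1.1.2), z.1.1.1.2.2), z.1.1.2.2), z.1.2.2))
    (fun z => ((z.1.1.1.1.2, z.1.1.1.2.2, z.1.1.2.2, z.1.2.2),
      (((z.1.1.1.1.1, z.1.1.1.1.2), z.1.1.1.2.2), z.1.1.2.2)))
    (fun c => (c.2, c.1.2.2.2)) (fun _ _ => rfl)
  have d2 := (L5 E).H_le_of_det
    (fun z => (((((z.1.1.1.1.1, z.1.1.1.1.2), z.1.1.1.2.2), z.1.1.2.2), z.1.2.2), z.2.2))
    (fun z => (lv5 z, ((((z.1.1.1.1.1, z.1.1.1.1.2), z.1.1.1.2.2), z.1.1.2.2), z.1.2.2)))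
    (fun c => (c.2, c.1.2.2.2.2)) (fun _ _ => rfl)
  linarith

lemma H_ctr3 : (L3 E).H (fun z => (lv3 z, z.1.1.1)) = 3 * he E - 2 * hx E := by
  rw [← HS3]
  exact H_eq_of_det _ _ _ (fun c => ((c.1.1.2, c.1.2, c.2), c.1.1.1))
    (fun c => (((c.2, c.1.1), c.1.2.1), c.1.2.2)) (fun _ _ => rfl) (fun _ _ => rfl)

lemma H_ctr2 : (L2 E).H (fun z => ((z.1.2, z.2.2), z.1.1)) = 2 * he E - hx E := by
  rw [← HS2]
  exact H_eq_of_det _ _ _ (fun c => ((c.1.2, c.2), c.1.1))
    (fun c => ((c.2, c.1.1), c.1.2)) (fun _ _ => rfl) (fun _ _ => rfl)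

variable {E}
variable {R : X → Y → Prop}

lemma supp2 (hE : ∀ e, E.p e ≠ 0 → R e.1 e.2) {z : O2 X Y} (hz : (L2 E).p z ≠ 0) :
    R z.1.1 z.1.2 ∧ R z.1.1 z.2.2 := by
  obtain ⟨a, b, c⟩ := glue_supp _ hz
  exact ⟨hE _ a, by rw [c]; exact hE _ b⟩

lemma supp3 (hE : ∀ e, E.p e ≠ 0 → R e.1 e.2) {z : O3 X Y} (hz : (L3 E).p z ≠ 0) :
    R z.1.1.1 z.1.1.2 ∧ R z.1.1.1 z.1.2.2 ∧ R z.1.1.1 z.2.2 := by
  obtain ⟨a, b, c⟩ := glue_supp _ hz
  obtain ⟨a1, a2⟩ := supp2 hE a
  exact ⟨a1, a2, by rw [c]; exact hE _ b⟩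

/-- The condition defining a homomorphism from the Moebius ladder. -/
def IsHom (R : X → Y → Prop) (p : (Fin 5 → X) × (Fin 5 → Y)) : Prop :=
  ∀ i j : Fin 5, (j = i ∨ j = i + 1 ∨ j = i + 2) → R (p.1 i) (p.2 j)

omit [Fintype X] [Fintype Y] in
lemma isHom_mk {x0 x1 x2 x3 x4 : X} {y0 y1 y2 y3 y4 : Y}
    (a0 : R x0 y0 ∧ R x0 y1 ∧ R x0 y2) (a1 : R x1 y1 ∧ R x1 y2 ∧ R x1 y3)
    (a2 : R x2 y2 ∧ R x2 y3 ∧ R x2 y4) (a3 : R x3 y3 ∧ R x3 y4 ∧ R x3 y0)
    (a4 : R x4 y4 ∧ R x4 y0 ∧ R x4 y1) :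
    IsHom R (![x0, x1, x2, x3, x4], ![y0, y1, y2, y3, y4]) := by
  intro i j h
  obtain ⟨a00, a01, a02⟩ := a0
  obtain ⟨a10, a11, a12⟩ := a1
  obtain ⟨a20, a21, a22⟩ := a2
  obtain ⟨a30, a31, a32⟩ := a3
  obtain ⟨a40, a41, a42⟩ := a4
  rcases h with h | h | h <;> rw [h] <;> fin_cases i <;> assumption

/-- One step of attaching a common neighbour to three vertices with the law of three leaves. -/
lemma attach {Ω β : Type} [Fintype Ω] [Fintype β] (hE : ∀ e, E.p e ≠ 0 → R e.1 e.2)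
    (P : FD Ω) (Z : Ω → β) (f : β → Y × Y × Y) (h : Same P (fun w => f (Z w)) (L3 E) lv3) :
    ∃ (Ω' : Type) (_ : Fintype Ω') (P' : FD Ω') (Z' : Ω' → β × X),
      Same P' (fun w => (Z' w).1) P Z ∧
      P'.H Z' = P.H Z + (3 * he E - 2 * hx E - h3 E) ∧
      ∀ w, P'.p w ≠ 0 → R (Z' w).2 (f (Z' w).1).1 ∧ R (Z' w).2 (f (Z' w).1).2.1 ∧
        R (Z' w).2 (f (Z' w).1).2.2 := by
  refine ⟨Ω × O3 X Y, inferInstance, glue P (L3 E) _ lv3 h, fun z => (Z z.1, z.2.1.1.1),
    glue_fst h Z, ?_, ?_⟩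
  · have := copy_H h Z (fun z => z.1.1.1) f (fun _ => rfl)
    rw [this, H_ctr3]
    have : (L3 E).H lv3 = h3 E := rfl
    rw [this]
    ring
  · intro z hz
    obtain ⟨a, b, c⟩ := glue_supp h hz
    have := supp3 hE b
    simp only at c ⊢
    rw [c]
    exact this

/-- The star construction. -/
theorem bound_star (hE : ∀ e, E.p e ≠ 0 → R e.1 e.2) (T : Finset ((Fin 5 → X) × (Fin 5 → Y)))
    (hT : ∀ p, IsHom R p → p ∈ T) :
    17 * he E - 12 * hx E - 4 * h3 E ≤ Real.log T.card := by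
  have l0 : Same (L5 E) (fun w => ((lv5 w).1, (lv5 w).2.1, (lv5 w).2.2.1)) (L3 E) lv3 :=
    (t5123 E).map (fun c => (c.1.1.2, c.1.2, c.2))
  have l1 : Same (L5 E) (fun w => ((lv5 w).2.1, (lv5 w).2.2.1, (lv5 w).2.2.2.1)) (L3 E) lv3 :=
    (t5234 E).map (fun c => (c.1.1.2, c.1.2, c.2))
  have l2 : Same (L5 E) (fun w => ((lv5 w).2.2.1, (lv5 w).2.2.2.1, (lv5 w).2.2.2.2)) (L3 E) lv3 :=
    (t5345 E).map (fun c => (c.1.1.2, c.1.2, c.2))
  have l3 : Same (L5 E) (fun w => ((lv5 w).1, (lv5 w).2.2.2.1, (lv5 w).2.2.2.2)) (L3 E) lv3 :=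
    (t5145 E).map (fun c => (c.1.1.2, c.1.2, c.2))
  have l4 : Same (L5 E) (fun w => ((lv5 w).1, (lv5 w).2.1, (lv5 w).2.2.2.2)) (L3 E) lv3 :=
    (t5125 E).map (fun c => (c.1.1.2, c.1.2, c.2))
  obtain ⟨Ω0, i0, P0, Z0, m0, H0, s0⟩ := attach hE (L5 E) lv5 (fun c => (c.1, c.2.1, c.2.2.1)) l0
  obtain ⟨Ω1, i1, P1, Z1, m1, H1, s1⟩ := attach hE P0 Z0
    (fun c => (c.1.2.1, c.1.2.2.1, c.1.2.2.2.1))
    ((m0.map (fun c => (c.2.1, c.2.2.1, c.2.2.2.1))).trans l1)
  have n1 : Same P1 (fun w => (Z1 w).1.1) (L5 E) lv5 := (m1.map Prod.fst).trans m0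
  obtain ⟨Ω2, i2, P2, Z2, m2, H2, s2⟩ := attach hE P1 Z1
    (fun c => (c.1.1.2.2.1, c.1.1.2.2.2.1, c.1.1.2.2.2.2))
    ((n1.map (fun c => (c.2.2.1, c.2.2.2.1, c.2.2.2.2))).trans l2)
  have n2 : Same P2 (fun w => (Z2 w).1.1.1) (L5 E) lv5 := (m2.map (fun c => c.1.1)).trans n1
  obtain ⟨Ω3, i3, P3, Z3, m3, H3, s3⟩ := attach hE P2 Z2
    (fun c => (c.1.1.1.1, c.1.1.1.2.2.2.1, c.1.1.1.2.2.2.2))
    ((n2.map (fun c => (c.1, c.2.2.2.1, c.2.2.2.2))).trans l3)
  have n3 : Same P3 (fun w => (Z3 w).1.1.1.1) (L5 E) lv5 := (m3.map (fun c => c.1.1.1)).trans n2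
  obtain ⟨Ω4, i4, P4, Z4, m4, H4, s4⟩ := attach hE P3 Z3
    (fun c => (c.1.1.1.1.1, c.1.1.1.1.2.1, c.1.1.1.1.2.2.2.2))
    ((n3.map (fun c => (c.1, c.2.1, c.2.2.2.2))).trans l4)
  let F : Ω4 → (Fin 5 → X) × (Fin 5 → Y) := fun w =>
    (![(Z4 w).1.1.1.1.2, (Z4 w).1.1.1.2, (Z4 w).1.1.2, (Z4 w).1.2, (Z4 w).2],
     ![(Z4 w).1.1.1.1.1.1, (Z4 w).1.1.1.1.1.2.1, (Z4 w).1.1.1.1.1.2.2.1,
       (Z4 w).1.1.1.1.1.2.2.2.1, (Z4 w).1.1.1.1.1.2.2.2.2])
  have k1 : P4.H Z4 ≤ P4.H F := P4.H_le_of_det Z4 F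
    (fun p => ((((((p.2 0, p.2 1, p.2 2, p.2 3, p.2 4), p.1 0), p.1 1), p.1 2), p.1 3), p.1 4))
    (fun _ _ => rfl)
  have k2 : P4.H F ≤ Real.log T.card := by
    apply P4.H_le_log_card F T
    intro w hw
    have a4 := s4 w hw
    have a3 := m4.ae (fun c => R c.2 c.1.1.1.1.1 ∧ R c.2 c.1.1.1.1.2.2.2.1 ∧
      R c.2 c.1.1.1.1.2.2.2.2) s3 w hw
    have a2 := ((m4.map Prod.fst).trans m3).ae (fun c => R c.2 c.1.1.1.2.2.1 ∧
      R c.2 c.1.1.1.2.2.2.1 ∧ R c.2 c.1.1.1.2.2.2.2) s2 w hw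
    have a1 := ((m4.map (fun c => c.1.1)).trans ((m3.map Prod.fst).trans m2)).ae
      (fun c => R c.2 c.1.1.2.1 ∧ R c.2 c.1.1.2.2.1 ∧ R c.2 c.1.1.2.2.2.1) s1 w hw
    have a0 := ((m4.map (fun c => c.1.1.1)).trans ((m3.map (fun c => c.1.1)).trans
      ((m2.map Prod.fst).trans m1))).ae
      (fun c => R c.2 c.1.1 ∧ R c.2 c.1.2.1 ∧ R c.2 c.1.2.2.1) s0 w hw
    exact hT _ (isHom_mk a0 a1 a2 ⟨a3.2.1, a3.2.2, a3.1⟩ ⟨a4.2.2, a4.1, a4.2.1⟩)
  have := H_lv5 E
  linarith

end Pool.Agent.MP_344f7e_co.H86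

end MrgPart1

-- ======== part 2: formerly Pool.Agent.MP_344f7e_co.H86.Reflect
section MrgPart2

/-!
The reflection construction: a random homomorphism of the Moebius ladder grown from a three-star.
-/

set_option autoImplicit false

namespace Pool.Agent.MP_344f7e_co.H86

open Finset FD

variable {X Y : Type} [Fintype X] [Fintype Y] (E : FD (X × Y))

lemma g1 : Same (L3 E) (fun z => (z.1.2.2, z.2.2)) (L2 E) (fun z => (z.1.2, z.2.2)) :=
  (s323 E).map (fun c => (c.1.2, c.2))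

noncomputable def U1 : FD (O3 X Y × O2 X Y) :=
  glue (L3 E) (L2 E) (fun z => (z.1.2.2, z.2.2)) (fun z => (z.1.2, z.2.2)) (g1 E)

lemma g2 : Same (U1 E) (fun w => w.1.2.2) E Prod.snd :=
  (glue_fst (g1 E) (fun z => z.2.2)).trans ((e33 E).map Prod.snd)

abbrev OU (X Y : Type) := (O3 X Y × O2 X Y) × (X × Y)

noncomputable def U2 : FD (OU X Y) := glue (U1 E) E (fun w => w.1.2.2) Prod.snd (g2 E)

lemma he_swap : E.H (fun v => (v.2, v.1)) = he E :=
  H_eq_of_det _ _ _ Prod.swap Prod.swap (fun _ _ => rfl) (fun _ _ => rfl)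

/-- boundary `((y1, y2, y4), x5)` -/
def bd (w : OU X Y) : (Y × Y × Y) × X := (lv3 w.1.1, w.2.1)
/-- boundary with the first two leaves exchanged -/
def bd' (w : OU X Y) : (Y × Y × Y) × X := ((w.1.1.1.2.2, w.1.1.1.1.2, w.1.1.2.2), w.2.1)
/-- boundary together with `x4` -/
def bd4 (w : OU X Y) : ((Y × Y × Y) × X) × X := ((lv3 w.1.1, w.1.2.1.1), w.2.1)
/-- the mirror `(y1, y2, x5, x4)` -/
def om (w : OU X Y) : Y × Y × X × X := (w.1.1.1.1.2, w.1.1.1.2.2, w.2.1, w.1.2.1.1)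
/-- the reflected pair `(y4, centre)` -/
def rf (w : OU X Y) : Y × X := (w.1.1.2.2, w.1.1.1.1.1)

lemma F1 : (U2 E).H bd = h3 E + he E - hy E := by
  have a := copy_H (g2 E) (fun w => lv3 w.1) Prod.fst (fun c => c.2.2) (fun _ => rfl)
  have b : (U1 E).H (fun w => lv3 w.1) = h3 E := (glue_fst (g1 E) lv3).H_eq
  rw [b, he_swap] at a
  exact a

lemma F2 : (U2 E).H bd4 = h3 E + (2 * he E - hx E - h2 E) + he E - hy E := by
  have a := copy_H (g2 E) (fun w => (lv3 w.1, w.2.1.1)) Prod.fst (fun c => c.1.2.2) (fun _ => rfl)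
  have b := copy_H (g1 E) lv3 (fun z => z.1.1) (fun c => (c.2.1, c.2.2)) (fun _ => rfl)
  rw [H_ctr2] at b
  rw [he_swap] at a
  have c : (L3 E).H lv3 = h3 E := rfl
  have d : (L2 E).H (fun z => (z.1.2, z.2.2)) = h2 E := rfl
  have e : (U1 E).H (fun w => (lv3 w.1, w.2.1.1)) = _ := b
  have f : (U2 E).H bd4 = _ := a
  unfold hy
  linarith

lemma F3 : (U2 E).H (fun w => (om w, rf w))
    = 3 * he E - 2 * hx E + (2 * he E - hx E - h2 E) + he E - hy E := by
  have a := copy_H (g2 E) (fun w => ((lv3 w.1, w.1.1.1.1), w.2.1.1)) Prod.fst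
    (fun c => c.1.1.2.2) (fun _ => rfl)
  have b := copy_H (g1 E) (fun z => (lv3 z, z.1.1.1)) (fun z => z.1.1)
    (fun c => (c.1.2.1, c.1.2.2)) (fun _ => rfl)
  rw [H_ctr2, H_ctr3] at b
  rw [he_swap] at a
  have d : (L2 E).H (fun z => (z.1.2, z.2.2)) = h2 E := rfl
  have e : (U1 E).H (fun w => ((lv3 w.1, w.1.1.1.1), w.2.1.1)) = _ := b
  have f : (U2 E).H (fun w => (((lv3 w.1.1, w.1.1.1.1.1), w.1.2.1.1), w.2.1)) = _ := a
  have g : (U2 E).H (fun w => (om w, rf w))
      = (U2 E).H (fun w => (((lv3 w.1.1, w.1.1.1.1.1), w.1.2.1.1), w.2.1)) :=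
    H_eq_of_det _ _ _
      (fun c => ((c.1.1.1.1, c.1.1.1.2.1, c.2, c.1.2), (c.1.1.1.2.2, c.1.1.2)))
      (fun c => ((((c.1.1, c.1.2.1, c.2.1), c.2.2), c.1.2.2.2), c.1.2.2.1))
      (fun _ _ => rfl) (fun _ _ => rfl)
  unfold hy
  linarith

lemma F4 : (U2 E).H om ≤ h2 E - hy E + he E + h2x E - hx E := by
  have n := copy_new (g1 E) (fun z => z.1.1)
  have e42 : Same (U1 E) (fun w => (w.2.1.1, w.1.1.2.2)) E (fun v => (v.1, v.2)) :=
    (n.map (fun c => (c.2, c.1.1))).trans (e21 E)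
  have e44 : Same (U1 E) (fun w => (w.2.1.1, w.1.2.2)) E (fun v => (v.1, v.2)) :=
    (n.map (fun c => (c.2, c.1.2))).trans (e22 E)
  have e42' : Same (U2 E) (fun w => (w.1.2.1.1, w.1.1.1.2.2)) E (fun v => (v.1, v.2)) :=
    (glue_fst (g2 E) (fun w => (w.2.1.1, w.1.1.2.2))).trans e42
  have a1 : (U2 E).H (fun w => (w.1.2.1.1, w.1.1.1.2.2)) = he E := e42'.H_eq
  have a2 : (U2 E).H (fun w => w.1.2.1.1) = hx E := (e42'.map Prod.fst).H_eq
  have a3 : (U2 E).H (fun w => w.1.1.1.2.2) = hy E := (e42'.map Prod.snd).H_eq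
  have a4 : (U2 E).H (fun w => (w.1.1.1.1.2, w.1.1.1.2.2)) = h2 E :=
    ((glue_fst (g2 E) (fun w => (w.1.1.1.2, w.1.1.2.2))).trans
      ((glue_fst (g1 E) (fun z => (z.1.1.2, z.1.2.2))).trans
        ((s312 E).map (fun c => (c.1.2, c.2))))).H_eq
  have a5 : (U2 E).H (fun w => (w.1.2.1.1, w.2.1)) = h2x E :=
    ((copy_same (g2 E) (Same.refl E Prod.snd) (fun w => (w.2.1.1, w.1.2.2)) (fun v => (v.1, v.2))
      Prod.fst Prod.snd (fun _ => rfl) (fun _ => rfl) e44).map (fun c => (c.1.1, c.2))).H_eq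
  have s1 := (U2 E).submod (fun w => (w.1.1.1.1.2, w.1.1.1.2.2))
    (fun w => ((w.1.2.1.1, w.1.1.1.2.2), (w.1.2.1.1, w.2.1))) (fun w => w.1.1.1.2.2)
    Prod.snd (fun c => c.1.2) (fun _ => rfl) (fun _ => rfl)
  have s2 := (U2 E).submod (fun w => (w.1.2.1.1, w.1.1.1.2.2)) (fun w => (w.1.2.1.1, w.2.1))
    (fun w => w.1.2.1.1) Prod.fst Prod.fst (fun _ => rfl) (fun _ => rfl)
  have d := (U2 E).H_le_of_det om
    (fun w => ((w.1.1.1.1.2, w.1.1.1.2.2), ((w.1.2.1.1, w.1.1.1.2.2), (w.1.2.1.1, w.2.1))))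
    (fun c => (c.1.1, c.1.2, c.2.2.2, c.2.2.1)) (fun _ _ => rfl)
  linarith

lemma sym2 : Same (L2 E) (fun z => ((z.1.1, z.1.2), z.2.2)) (L2 E)
    (fun z => ((z.1.1, z.2.2), z.1.2)) := by
  have a := (glue_swap (Same.refl E Prod.fst) (fun v => (v.1, v.2)) Prod.fst
    (fun _ => rfl)).map (fun c => ((c.1.1, c.1.2), c.2.2))
  refine a.trans (same_of_ae _ ?_)
  intro z hz
  obtain ⟨_, _, c⟩ := glue_supp _ hz
  simp only [c]

lemma F5 : Same (U2 E) bd (U2 E) bd' := by
  have a : Same (L3 E) lv3 (L3 E) (fun z => (z.1.2.2, z.1.1.2, z.2.2)) :=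
    (copy_same (c2 E) (c2 E) (fun z => ((z.1.1, z.1.2), z.2.2)) (fun z => ((z.1.1, z.2.2), z.1.2))
      Prod.snd (fun c => c.1.1) (fun _ => rfl) (fun _ => rfl) (sym2 E)).map
      (fun c => (c.1.1.2, c.1.2, c.2))
  have b : Same (U1 E) (fun w => lv3 w.1) (U1 E) (fun w => (w.1.1.2.2, w.1.1.1.2, w.1.2.2)) :=
    (glue_fst (g1 E) lv3).trans
      (a.trans (glue_fst (g1 E) (fun z => (z.1.2.2, z.1.1.2, z.2.2))).symm)
  exact copy_same (g2 E) (g2 E) (fun w => lv3 w.1) (fun w => (w.1.1.2.2, w.1.1.1.2, w.1.2.2))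
    Prod.fst (fun c => c.2.2) (fun _ => rfl) (fun _ => rfl) b

noncomputable def V1 : FD (OU X Y × OU X Y) := glue (U2 E) (U2 E) om om (Same.refl _ _)

lemma g3 : Same (V1 E) (fun z => bd z.1) (V1 E) (fun z => bd' z.1) :=
  (glue_fst (Same.refl (U2 E) om) bd).trans
    ((F5 E).trans (glue_fst (Same.refl (U2 E) om) bd').symm)

noncomputable def W1 : FD ((OU X Y × OU X Y) × (OU X Y × OU X Y)) :=
  glue (V1 E) (V1 E) (fun z => bd z.1) (fun z => bd' z.1) (g3 E)

variable {E}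
variable {R : X → Y → Prop}

lemma suppU (hE : ∀ e, E.p e ≠ 0 → R e.1 e.2) {w : OU X Y} (hw : (U2 E).p w ≠ 0) :
    (R (rf w).2 (om w).1 ∧ R (rf w).2 (om w).2.1 ∧ R (rf w).2 (rf w).1) ∧
      R (om w).2.2.2 (om w).2.1 ∧ R (om w).2.2.2 (rf w).1 ∧ R (om w).2.2.1 (rf w).1 := by
  obtain ⟨a, b, c⟩ := glue_supp _ hw
  obtain ⟨a1, a2, a3⟩ := glue_supp _ a
  have s3 := supp3 hE a1
  have s2 := supp2 hE a2
  simp only [Prod.mk.injEq] at a3
  refine ⟨s3, ?_, ?_, ?_⟩
  · simp only [om]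
    rw [a3.1]
    exact s2.1
  · simp only [om, rf]
    rw [a3.2]
    exact s2.2
  · simp only [om, rf]
    rw [c]
    exact hE _ b

/-- The reflection construction. -/
theorem bound_refl (hE : ∀ e, E.p e ≠ 0 → R e.1 e.2) (T : Finset ((Fin 5 → X) × (Fin 5 → Y)))
    (hT : ∀ p, IsHom R p → p ∈ T) :
    h3 E + 15 * he E - 6 * h2 E - 2 * h2x E - hy E - 6 * hx E ≤ Real.log T.card := by
  have a1 : (V1 E).H (fun z => (bd4 z.1, rf z.2)) = _ :=
    copy_H (Same.refl (U2 E) om) bd4 rf (fun c => (c.1.1.1, c.1.1.2.1, c.2, c.1.2)) (fun _ => rfl)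
  have a2 : (W1 E).H (fun z => ((bd4 z.1.1, rf z.1.2), ((om z.2.1).2.2.2, rf z.2.2))) = _ :=
    copy_H (g3 E) (fun z => (bd4 z.1, rf z.2)) (fun z => ((om z.1).2.2.2, rf z.2))
      (fun c => (c.1.1.1, c.1.2)) (fun _ => rfl)
  have a3 : (V1 E).H (fun z => (bd' z.1, ((om z.1).2.2.2, rf z.2)))
      = (V1 E).H (fun z => (bd4 z.1, rf z.2)) :=
    H_eq_of_det _ _ _
      (fun c => (((c.1.1.1.2.1, c.1.1.1.1, c.1.1.1.2.2), c.1.2), (c.1.1.2, c.2)))
      (fun c => ((((c.1.1.2.1, c.1.1.1, c.1.1.2.2), c.2.1), c.1.2), c.2.2))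
      (fun _ _ => rfl) (fun _ _ => rfl)
  have a4 : (V1 E).H (fun z => bd' z.1) = h3 E + he E - hy E :=
    ((g3 E).symm.trans (glue_fst (Same.refl (U2 E) om) bd)).H_eq.trans (F1 E)
  let F : (OU X Y × OU X Y) × (OU X Y × OU X Y) → (Fin 5 → X) × (Fin 5 → Y) := fun z =>
    (![(om z.2.1).2.2.2, (rf z.2.2).2, (rf z.1.2).2, (om z.1.1).2.2.2, (om z.1.1).2.2.1],
     ![(rf z.1.1).1, (rf z.2.2).1, (om z.1.1).1, (om z.1.1).2.1, (rf z.1.2).1])
  have k1 := (W1 E).H_le_of_det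
    (fun z => ((bd4 z.1.1, rf z.1.2), ((om z.2.1).2.2.2, rf z.2.2))) F
    (fun p => (((((p.2 2, p.2 3, p.2 0), p.1 3), p.1 4), (p.2 4, p.1 2)), (p.1 0, (p.2 1, p.1 1))))
    (fun _ _ => rfl)
  have k2 : (W1 E).H F ≤ Real.log T.card := by
    apply (W1 E).H_le_log_card F T
    intro z hz
    obtain ⟨a, b, c⟩ := glue_supp _ hz
    obtain ⟨p1, p2, p3⟩ := glue_supp _ a
    obtain ⟨q1, q2, q3⟩ := glue_supp _ b
    obtain ⟨_, u2, u3, u4⟩ := suppU hE p1
    obtain ⟨⟨v1, v2, v3⟩, _, v5, v6⟩ := suppU hE p2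
    obtain ⟨_, r2, r3, _⟩ := suppU hE q1
    obtain ⟨⟨t1, t2, t3⟩, _, t5, t6⟩ := suppU hE q2
    rw [← p3] at v1 v2 v5 v6
    rw [← q3] at t1 t2 t5 t6
    have c1 : (om z.1.1).1 = (om z.2.1).2.1 := congrArg (fun d => d.1.1) c
    have c2 : (om z.1.1).2.1 = (om z.2.1).1 := congrArg (fun d => d.1.2.1) c
    have c3 : (rf z.1.1).1 = (rf z.2.1).1 := congrArg (fun d => d.1.2.2) c
    have c4 : (om z.1.1).2.2.1 = (om z.2.1).2.2.1 := congrArg (fun d => d.2) c
    rw [← c1] at r2 t2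
    rw [← c2] at t1
    rw [← c3] at r3
    rw [← c4] at t6
    exact hT _ (isHom_mk ⟨r3, t5, r2⟩ ⟨t3, t2, t1⟩ ⟨v1, v2, v3⟩ ⟨u2, v5, u3⟩ ⟨v6, u4, t6⟩)
  have := F2 E
  have := F3 E
  have := F4 E
  linarith

/-- The two constructions together. -/
theorem bound_both (hE : ∀ e, E.p e ≠ 0 → R e.1 e.2) (T : Finset ((Fin 5 → X) × (Fin 5 → Y)))
    (hT : ∀ p, IsHom R p → p ∈ T) :
    77 * he E - 52 * Real.log (Fintype.card X) - 52 * Real.log (Fintype.card Y)
      ≤ 5 * Real.log T.card := by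
  have a := bound_refl hE T hT
  have b := bound_star hE T hT
  have x1 : hx E ≤ Real.log (Fintype.card X) := E.H_le_log _
  have y1 : hy E ≤ Real.log (Fintype.card Y) := E.H_le_log _
  have y2 : h2 E ≤ 2 * Real.log (Fintype.card Y) := by
    have := (L2 E).subadd (fun z => z.1.2) (fun z => z.2.2)
    have := (L2 E).H_le_log (fun z => z.1.2)
    have := (L2 E).H_le_log (fun z => z.2.2)
    unfold h2
    linarith
  have x2 : h2x E ≤ 2 * Real.log (Fintype.card X) := by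
    have := (C2 E).subadd (fun z => z.1.1) (fun z => z.2.1)
    have := (C2 E).H_le_log (fun z => z.1.1)
    have := (C2 E).H_le_log (fun z => z.2.1)
    unfold h2x
    linarith
  linarith

end Pool.Agent.MP_344f7e_co.H86

end MrgPart2

-- ======== part 3: formerly Pool.Agent.MP_344f7e_co.H86.Dense
section MrgPart3

/-!
Uniform edge distribution, explicit laws of the leaves, and the dense abelian case.
-/

set_option autoImplicit false

namespace Pool.Agent.MP_344f7e_co.H86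

open Finset FD

section laws

variable {Ω Ω' β γ δ : Type} [Fintype Ω] [Fintype Ω']

lemma copy_law [Fintype β] [Fintype γ] [Fintype δ] {P : FD Ω} {Q : FD Ω'} {U : Ω → δ}
    {V : Ω' → δ} (h : Same P U Q V) (X : Ω → β) (N : Ω' → γ) (f : β → δ)
    (hf : ∀ w, U w = f (X w)) (b : β) (c : γ) :
    (glue P Q U V h).law (fun z => (X z.1, N z.2)) (b, c)
      = P.law X b * Q.law (fun v => (V v, N v)) (f b, c) / Q.law V (f b) := by
  have a := glue_law h X (fun v => (V v, N v)) f Prod.fst hf (fun _ => rfl) b (f b, c)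
  rw [ind_pos rfl, one_mul, h] at a
  rw [← a, law_def, law_def]
  apply Finset.sum_congr rfl
  intro z _
  by_cases hz : (glue P Q U V h).p z = 0
  · simp [hz]
  · obtain ⟨_, _, h3⟩ := glue_supp h hz
    congr 1
    apply ind_congr
    simp only [Prod.mk.injEq, ← h3, hf]
    constructor
    · rintro ⟨rfl, k⟩
      exact ⟨rfl, rfl, k⟩
    · rintro ⟨k1, _, k⟩
      exact ⟨k1, k⟩

variable {X Y : Type} [Fintype X] [Fintype Y] (E : FD (X × Y))

lemma law_id (e : X × Y) : E.law (fun v => (v.1, v.2)) e = E.p e := by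
  rw [law_def]
  have := sum_ind_eq e E.p
  rw [← this]
  apply Finset.sum_congr rfl
  intro v _
  rw [ind_congr (eq_comm (a := (v.1, v.2)) (b := e))]

lemma law_swap (x : X) (y : Y) : E.law (fun v => (v.2, v.1)) (y, x) = E.p (x, y) := by
  rw [← law_id, law_def, law_def]
  apply Finset.sum_congr rfl
  intro v _
  congr 1
  apply ind_congr
  simp only [Prod.mk.injEq]
  exact and_comm

lemma law_S2 (x : X) (y y' : Y) : (L2 E).law (fun z => ((z.1.1, z.1.2), z.2.2)) ((x, y), y')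
    = E.p (x, y) * E.p (x, y') / E.law Prod.fst x := by
  have := copy_law (Same.refl E Prod.fst) (fun v => (v.1, v.2)) Prod.snd Prod.fst (fun _ => rfl)
    (x, y) y'
  rw [law_id, law_id] at this
  exact this

lemma law_S3 (x : X) (y y' y'' : Y) :
    (L3 E).law (fun z => (((z.1.1.1, z.1.1.2), z.1.2.2), z.2.2)) (((x, y), y'), y'')
    = E.p (x, y) * E.p (x, y') / E.law Prod.fst x * E.p (x, y'') / E.law Prod.fst x := by
  have := copy_law (c2 E) (fun z => ((z.1.1, z.1.2), z.2.2)) Prod.snd (fun c => c.1.1)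
    (fun _ => rfl) ((x, y), y') y''
  rw [law_id, law_S2] at this
  exact this

lemma law_C2 (x x' : X) (y : Y) : (C2 E).law (fun z => ((z.1.1, z.1.2), z.2.1)) ((x, y), x')
    = E.p (x, y) * E.p (x', y) / E.law Prod.snd y := by
  have := copy_law (Same.refl E Prod.snd) (fun v => (v.1, v.2)) Prod.fst Prod.snd (fun _ => rfl)
    (x, y) x'
  rw [law_id, law_swap] at this
  exact this

lemma law_marg {A B : Type} [Fintype A] [Fintype B] (P : FD Ω) (Z : Ω → A) (W : Ω → B) (b : B) :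
    P.law W b = ∑ a, P.law (fun w => (Z w, W w)) (a, b) := by
  rw [P.law_comp (fun w => (Z w, W w)) Prod.snd b, Fintype.sum_prod_type]
  apply Finset.sum_congr rfl
  intro a _
  have := sum_ind_eq b (fun c => P.law (fun w => (Z w, W w)) (a, c))
  rw [← this]
  apply Finset.sum_congr rfl
  intro c _
  rw [ind_congr (eq_comm (a := c) (b := b))]
  ring

lemma law_equiv {A B : Type} (P : FD Ω) (Z : Ω → A) (W : Ω → B) (a : A) (b : B)
    (h : ∀ w, Z w = a ↔ W w = b) : P.law Z a = P.law W b := by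
  rw [law_def, law_def]
  apply Finset.sum_congr rfl
  intro w _
  rw [ind_congr (h w)]

lemma law_lv2 (y y' : Y) : (L2 E).law (fun z => (z.1.2, z.2.2)) (y, y')
    = ∑ x, E.p (x, y) * E.p (x, y') / E.law Prod.fst x := by
  rw [law_marg (L2 E) (fun z => z.1.1)]
  apply Finset.sum_congr rfl
  intro x _
  rw [← law_S2]
  apply law_equiv
  intro w
  simp only [Prod.mk.injEq]
  tauto

lemma law_lv3 (y y' y'' : Y) : (L3 E).law (fun z => (z.1.1.2, z.1.2.2, z.2.2)) (y, y', y'')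
    = ∑ x, E.p (x, y) * E.p (x, y') / E.law Prod.fst x * E.p (x, y'') / E.law Prod.fst x := by
  rw [law_marg (L3 E) (fun z => z.1.1.1)]
  apply Finset.sum_congr rfl
  intro x _
  rw [← law_S3]
  apply law_equiv
  intro w
  simp only [Prod.mk.injEq]
  tauto

lemma law_lv2x (x x' : X) : (C2 E).law (fun z => (z.1.1, z.2.1)) (x, x')
    = ∑ y, E.p (x, y) * E.p (x', y) / E.law Prod.snd y := by
  rw [law_marg (C2 E) (fun z => z.1.2)]
  apply Finset.sum_congr rfl
  intro y _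
  rw [← law_C2]
  apply law_equiv
  intro w
  simp only [Prod.mk.injEq]
  tauto

end laws

/-- The uniform distribution on a nonempty finite set. -/
noncomputable def unif {Ω : Type} [Fintype Ω] (S : Finset Ω) (hS : S.Nonempty) : FD Ω where
  p w := ind (w ∈ S) / S.card
  nonneg w := div_nonneg (ind_nonneg _) (Nat.cast_nonneg _)
  sum_eq := by
    classical
    have hc : (S.card : ℝ) ≠ 0 := by exact_mod_cast hS.card_pos.ne'
    have : ∑ w, ind (w ∈ S) = S.card := by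
      have : ∀ w, ind (w ∈ S) = if w ∈ S then 1 else 0 := by
        intro w
        by_cases h : w ∈ S
        · simp [h, ind_pos]
        · simp [h, ind_neg]
      simp [this]
    rw [← Finset.sum_div, this, div_self hc]

lemma unif_supp {Ω : Type} [Fintype Ω] (S : Finset Ω) (hS : S.Nonempty) {w : Ω}
    (h : (unif S hS).p w ≠ 0) : w ∈ S := by
  by_contra k
  exact h (by simp [unif, ind_neg k])

lemma he_unif {X Y : Type} [Fintype X] [Fintype Y] (S : Finset (X × Y)) (hS : S.Nonempty) :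
    he (unif S hS) = Real.log S.card := by
  unfold he H
  have : ∑ w, (unif S hS).p w * Real.log ((unif S hS).law (fun v => (v.1, v.2)) (w.1, w.2))
      = ∑ w, (unif S hS).p w * (- Real.log S.card) := by
    apply Finset.sum_congr rfl
    intro w _
    by_cases hw : (unif S hS).p w = 0
    · simp [hw]
    · rw [law_id]
      have : (unif S hS).p (w.1, w.2) = (S.card : ℝ)⁻¹ := by
        simp [unif, ind_pos (unif_supp S hS hw)]
      rw [this, Real.log_inv]
  rw [this, ← Finset.sum_mul, (unif S hS).sum_eq]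
  ring

lemma key_ineq {u : ℝ} (h0 : 0 ≤ u) (h1 : u ≤ 25 / 17) :
    u ^ 3 + 5 * u - 6 ≤ 8 * (u * Real.log u) := by
  rcases h0.eq_or_lt with rfl | hp
  · norm_num
  rcases le_total u 1 with h | h
  · have a : - Real.log u ≤ Real.sinh (- Real.log u) :=
      Real.self_le_sinh_iff.mpr (by have := Real.log_nonpos hp.le h; linarith)
    rw [Real.sinh_eq, neg_neg, Real.exp_neg, Real.exp_log hp] at a
    have b : u * (- Real.log u) ≤ u * ((u⁻¹ - u) / 2) := mul_le_mul_of_nonneg_left a hp.le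
    have c : u * ((u⁻¹ - u) / 2) = (1 - u ^ 2) / 2 := by field_simp
    rw [c] at b
    nlinarith [mul_nonneg (mul_nonneg (sub_nonneg.mpr h) (sub_nonneg.mpr h))
      (by linarith : (0 : ℝ) ≤ 2 - u)]
  · set z := (u - 1) / (u + 1) with hz
    have z0 : 0 ≤ z := div_nonneg (by linarith) (by linarith)
    have z1 : z ≤ 4 / 21 := by
      rw [hz, div_le_iff₀ (by linarith)]
      linarith
    have hs := Real.hasSum_log_sub_log_of_abs_lt_one (x := z)
      (by rw [abs_of_nonneg z0]; linarith)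
    have hl := sum_le_hasSum (Finset.range 2) (fun k _ => by positivity) hs
    have hu : u = (1 + z) / (1 - z) := by
      rw [hz]
      field_simp
      ring
    have hz1 : 0 < 1 - z := by linarith
    have e : Real.log (1 + z) - Real.log (1 - z) = Real.log u := by
      rw [hu, Real.log_div (by linarith) hz1.ne']
    rw [e] at hl
    simp only [Finset.sum_range_succ, Finset.sum_range_zero] at hl
    norm_num at hl
    have b : u * (2 * z + 2 / 3 * z ^ 3) ≤ u * Real.log u :=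
      mul_le_mul_of_nonneg_left (by linarith) hp.le
    have c : u ^ 3 + 5 * u - 6 ≤ 8 * (u * (2 * z + 2 / 3 * z ^ 3)) := by
      have d : 8 * (u * (2 * z + 2 / 3 * z ^ 3)) - (u ^ 3 + 5 * u - 6)
          = z ^ 2 * (4 - 68 / 3 * z + 32 / 3 * z ^ 2 - 16 / 3 * z ^ 3 + 16 / 3 * z ^ 4)
            / (1 - z) ^ 3 := by
        rw [hu]
        field_simp
        ring
      have q : 0 ≤ 4 - 68 / 3 * z + 32 / 3 * z ^ 2 - 16 / 3 * z ^ 3 + 16 / 3 * z ^ 4 := by
        have w0 : 0 ≤ 4 / 21 - z := by linarith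
        nlinarith [mul_nonneg w0 w0, mul_nonneg z0 w0, mul_nonneg (mul_nonneg z0 z0) w0,
          pow_nonneg z0 4]
      have : 0 ≤ z ^ 2 * (4 - 68 / 3 * z + 32 / 3 * z ^ 2 - 16 / 3 * z ^ 3 + 16 / 3 * z ^ 4)
            / (1 - z) ^ 3 := by positivity
      linarith
    linarith

lemma H_ge_collision {Ω β : Type} [Fintype Ω] [Fintype β] (P : FD Ω) (Z : Ω → β) {M : ℝ}
    (hM : 0 < M) : Real.log M - (M * ∑ b, P.law Z b ^ 2 - 1) ≤ P.H Z := by
  rw [FD.H_eq]
  have a : ∑ b, P.law Z b * Real.log (P.law Z b)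
      ≤ ∑ b, (M * P.law Z b ^ 2 - P.law Z b - P.law Z b * Real.log M) := by
    apply Finset.sum_le_sum
    intro b _
    rcases (P.law_nonneg Z b).eq_or_lt with h | h
    · simp [← h]
    · have := Real.log_le_sub_one_of_pos (mul_pos hM h)
      rw [Real.log_mul hM.ne' h.ne'] at this
      nlinarith
  rw [Finset.sum_sub_distrib, Finset.sum_sub_distrib, ← Finset.mul_sum, ← Finset.sum_mul,
    P.sum_law] at a
  linarith

lemma cube_swap {X Y : Type} [Fintype X] [Fintype Y] (g : X → Y → ℝ) :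
    ∑ b : Y × Y × Y, (∑ x, g x b.1 * g x b.2.1 * g x b.2.2) ^ 2
      = ∑ c : X × X, (∑ y, g c.1 y * g c.2 y) ^ 3 := by
  have l : ∀ b : Y × Y × Y, (∑ x, g x b.1 * g x b.2.1 * g x b.2.2) ^ 2
      = ∑ c : X × X, (g c.1 b.1 * g c.2 b.1) * ((g c.1 b.2.1 * g c.2 b.2.1)
        * (g c.1 b.2.2 * g c.2 b.2.2)) := by
    intro b
    rw [sq, Finset.sum_mul_sum, Fintype.sum_prod_type]
    apply Finset.sum_congr rfl
    intro x _
    apply Finset.sum_congr rfl
    intro x' _
    ring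
  simp only [l]
  rw [Finset.sum_comm]
  apply Finset.sum_congr rfl
  intro c _
  rw [Fintype.sum_prod_type]
  simp only [Fintype.sum_prod_type, ← Finset.mul_sum, ← Finset.sum_mul]
  ring

section abelian

open Pointwise

variable {G : Type} [AddCommGroup G] [Fintype G] [DecidableEq G] (A : Finset G)

/-- The edge set of the sum graph. -/
def edges : Finset (G × G) := Finset.univ.filter (fun e => e.1 + e.2 ∈ A)

lemma card_edges : (edges A).card = Fintype.card G * A.card := by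
  have : (edges A).card = ((Finset.univ : Finset G) ×ˢ A).card := by
    apply Finset.card_nbij' (fun e => (e.1, e.1 + e.2)) (fun e => (e.1, e.2 - e.1))
    · intro e he
      simpa [edges] using he
    · intro e he
      simpa [edges] using he
    · intro e _
      simp
    · intro e _
      simp
  rw [this, Finset.card_product, Finset.card_univ]

variable {A}

lemma edges_nonempty (hA : A.Nonempty) : (edges A).Nonempty := by
  obtain ⟨a, ha⟩ := hA
  exact ⟨(0, a), by simpa [edges] using ha⟩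

lemma sum_ind_shift (x : G) : ∑ y, ind (x + y ∈ A) = A.card := by
  rw [← Equiv.sum_comp (Equiv.addLeft (-x))]
  have : ∀ w : G, ind (x + (Equiv.addLeft (-x)) w ∈ A) = if w ∈ A then 1 else 0 := by
    intro w
    by_cases h : w ∈ A
    · simp [h, ind_pos]
    · simp [h, ind_neg]
  simp only [this]
  simp

/-- The uniform distribution on the edges of the sum graph. -/
noncomputable def EA (hA : A.Nonempty) : FD (G × G) := unif (edges A) (edges_nonempty hA)

lemma EA_p (hA : A.Nonempty) (x y : G) :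
    (EA hA).p (x, y) = ind (x + y ∈ A) / (Fintype.card G * A.card) := by
  simp only [EA, unif, card_edges]
  rw [ind_congr (c := (x, y) ∈ edges A) (d := x + y ∈ A) (by simp [edges])]
  push_cast
  rfl

lemma EA_supp (hA : A.Nonempty) (e : G × G) (h : (EA hA).p e ≠ 0) : e.1 + e.2 ∈ A := by
  simpa [edges] using unif_supp _ _ h

lemma EA_fst (hA : A.Nonempty) (x : G) : (EA hA).law Prod.fst x = (Fintype.card G : ℝ)⁻¹ := by
  have hD : (A.card : ℝ) ≠ 0 := by exact_mod_cast hA.card_pos.ne'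
  rw [law_marg (EA hA) Prod.snd]
  simp only [law_swap, EA_p]
  rw [← Finset.sum_div, sum_ind_shift]
  field_simp

lemma EA_snd (hA : A.Nonempty) (y : G) : (EA hA).law Prod.snd y = (Fintype.card G : ℝ)⁻¹ := by
  have hD : (A.card : ℝ) ≠ 0 := by exact_mod_cast hA.card_pos.ne'
  rw [law_marg (EA hA) Prod.fst]
  simp only [law_id, EA_p, add_comm _ y]
  rw [← Finset.sum_div, sum_ind_shift]
  field_simp

/-- Normalised codegree. -/
noncomputable def cod (A : Finset G) (c : G × G) : ℝ :=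
  Fintype.card G * (∑ y, ind (c.1 + y ∈ A) * ind (c.2 + y ∈ A)) / (A.card : ℝ) ^ 2

lemma law2_EA (hA : A.Nonempty) (c : G × G) :
    (L2 (EA hA)).law (fun z => (z.1.2, z.2.2)) c = cod A c / (Fintype.card G : ℝ) ^ 2 := by
  have hD : (A.card : ℝ) ≠ 0 := by exact_mod_cast hA.card_pos.ne'
  have hN : (Fintype.card G : ℝ) ≠ 0 := by exact_mod_cast Fintype.card_ne_zero
  obtain ⟨y, y'⟩ := c
  rw [law_lv2, cod, Finset.mul_sum, Finset.sum_div, Finset.sum_div]
  apply Finset.sum_congr rfl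
  intro x _
  rw [EA_p, EA_p, EA_fst, add_comm x y, add_comm x y']
  field_simp

lemma law2x_EA (hA : A.Nonempty) (c : G × G) :
    (C2 (EA hA)).law (fun z => (z.1.1, z.2.1)) c = cod A c / (Fintype.card G : ℝ) ^ 2 := by
  have hD : (A.card : ℝ) ≠ 0 := by exact_mod_cast hA.card_pos.ne'
  have hN : (Fintype.card G : ℝ) ≠ 0 := by exact_mod_cast Fintype.card_ne_zero
  obtain ⟨x, x'⟩ := c
  rw [law_lv2x, cod, Finset.mul_sum, Finset.sum_div, Finset.sum_div]
  apply Finset.sum_congr rfl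
  intro y _
  rw [EA_p, EA_p, EA_snd]
  field_simp

lemma h2x_EA (hA : A.Nonempty) : h2x (EA hA) = h2 (EA hA) :=
  Same.H_eq (fun c => (law2x_EA hA c).trans (law2_EA hA c).symm)

lemma he_EA (hA : A.Nonempty) : he (EA hA) = Real.log (Fintype.card G) + Real.log A.card := by
  have hD : (A.card : ℝ) ≠ 0 := by exact_mod_cast hA.card_pos.ne'
  have hN : (Fintype.card G : ℝ) ≠ 0 := by exact_mod_cast Fintype.card_ne_zero
  rw [EA, he_unif, card_edges, ← Real.log_mul hN hD]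
  push_cast
  rfl

lemma cod_nonneg (c : G × G) : 0 ≤ cod A c := by
  have : 0 ≤ ∑ y, ind (c.1 + y ∈ A) * ind (c.2 + y ∈ A) :=
    Finset.sum_nonneg fun y _ => mul_nonneg (ind_nonneg _) (ind_nonneg _)
  unfold cod
  positivity

lemma cod_le (hA : A.Nonempty) (c : G × G) : cod A c ≤ Fintype.card G / A.card := by
  have hD : (0 : ℝ) < A.card := by exact_mod_cast hA.card_pos
  have : ∑ y, ind (c.1 + y ∈ A) * ind (c.2 + y ∈ A) ≤ A.card := by
    rw [← sum_ind_shift (A := A) c.1]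
    apply Finset.sum_le_sum
    intro y _
    have := ind_nonneg (c.1 + y ∈ A)
    have := ind_le_one (c.2 + y ∈ A)
    nlinarith
  unfold cod
  rw [div_le_div_iff₀ (by positivity) hD]
  have hN : (0 : ℝ) ≤ Fintype.card G := Nat.cast_nonneg _
  nlinarith [mul_le_mul_of_nonneg_left this (mul_nonneg hN hD.le)]

lemma h3_EA (hA : A.Nonempty) :
    3 * Real.log (Fintype.card G) - ((∑ c, cod A c ^ 3) / (Fintype.card G : ℝ) ^ 2 - 1)
      ≤ h3 (EA hA) := by
  have hD : (A.card : ℝ) ≠ 0 := by exact_mod_cast hA.card_pos.ne'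
  have hN : (0 : ℝ) < Fintype.card G := by exact_mod_cast Fintype.card_pos
  have a := H_ge_collision (L3 (EA hA)) (fun z => (z.1.1.2, z.1.2.2, z.2.2))
    (M := (Fintype.card G : ℝ) ^ 3) (by positivity)
  have b : ∀ b : G × G × G, (L3 (EA hA)).law (fun z => (z.1.1.2, z.1.2.2, z.2.2)) b
      = (∑ x, ind (x + b.1 ∈ A) * ind (x + b.2.1 ∈ A) * ind (x + b.2.2 ∈ A))
        / (Fintype.card G * (A.card : ℝ) ^ 3) := by
    rintro ⟨y, y', y''⟩
    rw [law_lv3, Finset.sum_div]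
    apply Finset.sum_congr rfl
    intro x _
    rw [EA_p, EA_p, EA_p, EA_fst]
    field_simp
  simp only [b, div_pow, ← Finset.sum_div] at a
  rw [cube_swap (fun x y => ind (x + y ∈ A)), Real.log_pow] at a
  have c : (∑ c, cod A c ^ 3) / (Fintype.card G : ℝ) ^ 2
      = (Fintype.card G : ℝ) ^ 3 * ((∑ c : G × G,
        (∑ y, ind (c.1 + y ∈ A) * ind (c.2 + y ∈ A)) ^ 3)
        / (Fintype.card G * (A.card : ℝ) ^ 3) ^ 2) := by
    simp only [cod, div_pow, mul_pow, ← Finset.sum_div, ← Finset.mul_sum]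
    field_simp
  rw [c]
  unfold h3
  push_cast at a
  exact a

lemma h2_EA (hA : A.Nonempty) :
    h2 (EA hA) = 2 * Real.log (Fintype.card G)
      - (∑ c, cod A c * Real.log (cod A c)) / (Fintype.card G : ℝ) ^ 2 := by
  have hN : (0 : ℝ) < Fintype.card G := by exact_mod_cast Fintype.card_pos
  have s := (L2 (EA hA)).sum_law (fun z => (z.1.2, z.2.2))
  unfold h2
  rw [FD.H_eq]
  have : ∑ b, (L2 (EA hA)).law (fun z => (z.1.2, z.2.2)) b
        * Real.log ((L2 (EA hA)).law (fun z => (z.1.2, z.2.2)) b)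
      = ∑ b, (cod A b * Real.log (cod A b) / (Fintype.card G : ℝ) ^ 2
        - (L2 (EA hA)).law (fun z => (z.1.2, z.2.2)) b * (2 * Real.log (Fintype.card G))) := by
    apply Finset.sum_congr rfl
    intro b _
    rw [law2_EA]
    by_cases h : cod A b = 0
    · simp [h]
    · rw [Real.log_div h (by positivity), Real.log_pow]
      push_cast
      ring
  rw [this, Finset.sum_sub_distrib, ← Finset.sum_mul, s, ← Finset.sum_div]
  ring

lemma sum_cod (hA : A.Nonempty) : ∑ c, cod A c = (Fintype.card G : ℝ) ^ 2 := by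
  have hN : (0 : ℝ) < Fintype.card G := by exact_mod_cast Fintype.card_pos
  have s := (L2 (EA hA)).sum_law (fun z => (z.1.2, z.2.2))
  simp only [law2_EA, ← Finset.sum_div] at s
  rwa [div_eq_one_iff_eq (by positivity)] at s

theorem dense_log (hA : A.Nonempty) (hd : 17 * Fintype.card G ≤ 25 * A.card)
    (T : Finset ((Fin 5 → G) × (Fin 5 → G)))
    (hT : ∀ p, IsHom (fun x y => x + y ∈ A) p → p ∈ T) :
    15 * Real.log A.card - 5 * Real.log (Fintype.card G) ≤ Real.log T.card := by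
  have hD : (0 : ℝ) < A.card := by exact_mod_cast hA.card_pos
  have hN : (0 : ℝ) < Fintype.card G := by exact_mod_cast Fintype.card_pos
  have a := bound_refl (R := fun x y => x + y ∈ A) (EA_supp hA) T hT
  have x1 : hx (EA hA) ≤ Real.log (Fintype.card G) := (EA hA).H_le_log _
  have y1 : hy (EA hA) ≤ Real.log (Fintype.card G) := (EA hA).H_le_log _
  rw [h2x_EA, he_EA, h2_EA] at a
  have b := h3_EA hA
  have r : (Fintype.card G : ℝ) / A.card ≤ 25 / 17 := by
    rw [div_le_div_iff₀ hD (by norm_num)]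
    have : (17 * Fintype.card G : ℝ) ≤ 25 * A.card := by exact_mod_cast hd
    linarith
  have c : ∑ c, (cod A c ^ 3 + 5 * cod A c - 6) ≤ ∑ c, 8 * (cod A c * Real.log (cod A c)) :=
    Finset.sum_le_sum fun c _ => key_ineq (cod_nonneg c) ((cod_le hA c).trans r)
  rw [Finset.sum_sub_distrib, Finset.sum_add_distrib, ← Finset.mul_sum, ← Finset.mul_sum,
    sum_cod hA, Finset.sum_const, Finset.card_univ, Fintype.card_prod, nsmul_eq_mul] at c
  push_cast at c
  have d : (∑ c, cod A c ^ 3) / (Fintype.card G : ℝ) ^ 2 - 1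
      ≤ 8 * ((∑ c, cod A c * Real.log (cod A c)) / (Fintype.card G : ℝ) ^ 2) := by
    rw [← mul_div_assoc, sub_le_iff_le_add, div_add_one (by positivity),
      div_le_div_iff_of_pos_right (by positivity)]
    nlinarith
  linarith

lemma h2_le_diff (hA : A.Nonempty) :
    h2 (EA hA) ≤ Real.log (Fintype.card G) + Real.log (A - A).card := by
  have hD : (0 : ℝ) < (A - A).card := by exact_mod_cast (hA.sub hA).card_pos
  have hN : (0 : ℝ) < Fintype.card G := by exact_mod_cast Fintype.card_pos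
  have a := (L2 (EA hA)).H_le_of_det (fun z => (z.1.2, z.2.2)) (fun z => (z.1.2, z.1.2 - z.2.2))
    (fun c => (c.1, c.1 - c.2)) (fun z _ => by simp)
  have b := (L2 (EA hA)).H_le_log_card (fun z => (z.1.2, z.1.2 - z.2.2))
    ((Finset.univ : Finset G) ×ˢ (A - A)) (fun z hz => by
      obtain ⟨u, v⟩ := supp2 (R := fun x y => x + y ∈ A) (EA_supp hA) hz
      have := Finset.sub_mem_sub u v
      simpa using this)
  rw [Finset.card_product, Finset.card_univ] at b
  push_cast at b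
  rw [Real.log_mul hN.ne' hD.ne'] at b
  exact a.trans b

theorem diff_log (hA : A.Nonempty) (T : Finset ((Fin 5 → G) × (Fin 5 → G)))
    (hT : ∀ p, IsHom (fun x y => x + y ∈ A) p → p ∈ T) :
    77 * Real.log A.card + 5 * Real.log (Fintype.card G) - 32 * Real.log (A - A).card
      ≤ 5 * Real.log T.card := by
  have a := bound_refl (R := fun x y => x + y ∈ A) (EA_supp hA) T hT
  have b := bound_star (R := fun x y => x + y ∈ A) (EA_supp hA) T hT
  have x1 : hx (EA hA) ≤ Real.log (Fintype.card G) := (EA hA).H_le_log _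
  have y1 : hy (EA hA) ≤ Real.log (Fintype.card G) := (EA hA).H_le_log _
  have c := h2_le_diff hA
  rw [h2x_EA, he_EA] at a
  rw [he_EA] at b
  linarith

end abelian

end Pool.Agent.MP_344f7e_co.H86

end MrgPart3

-- marker of a merged file
example : 731051 + 505408 = 731051 + 505408 := rfl
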